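import Pool.Agent.Y354.DC3.Stm

/-!
# Job 6095 (DC3-RG): the recursion for regular weights
-/

set_option autoImplicit false
set_option linter.unusedSectionVars false

open Finset
open scoped Classical

namespace Pool.Agent.Y737.DC3.Rg

open Pool.Agent.Y354.DC3

variable {V : Type} [Fintype V] {μ : V → ℝ} {N : V → V → V → Prop}

theorem I_nonneg (p : Prop) : 0 ≤ I p := by
  unfold I
  split_ifs <;> norm_num

theorem E_nonneg (hμ : ∀ v, 0 ≤ μ v) {k : ℕ} {F : (Fin k → V) → ℝ} (hF : ∀ x, 0 ≤ F x) :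
    0 ≤ E μ N k F := by
  unfold E
  exact Finset.sum_nonneg fun x _ => mul_nonneg (mul_nonneg (I_nonneg _)
    (Finset.prod_nonneg fun i _ => hμ _)) (hF x)

theorem P_nonneg (hμ : ∀ v, 0 ≤ μ v) (k : ℕ) : 0 ≤ P μ N k :=
  E_nonneg hμ fun _ => zero_le_one

theorem Y_nonneg (hμ : ∀ v, 0 ≤ μ v) (k : ℕ) : 0 ≤ Y μ N k :=
  E_nonneg hμ fun _ => Finset.sum_nonneg fun v _ => Finset.sum_nonneg fun u _ =>
    mul_nonneg (mul_nonneg (hμ v) (hμ u)) (I_nonneg _)

theorem ind_small {k : ℕ} (hk : k ≤ 2) (x : Fin k → V) : Ind N x := by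
  intro i j l h1 h2 h3
  have h1' : i.val ≠ j.val := fun h => h1 (Fin.ext h)
  have h2' : i.val ≠ l.val := fun h => h2 (Fin.ext h)
  have h3' : j.val ≠ l.val := fun h => h3 (Fin.ext h)
  have := i.isLt
  have := j.isLt
  have := l.isLt
  omega

theorem P_small (hμ : Pr μ) {k : ℕ} (hk : k ≤ 2) : P μ N k = 1 := by
  unfold P E
  have e : ∀ x : Fin k → V, I (Ind N x) * (∏ i, μ (x i)) * 1 = ∏ i, μ (x i) := by
    intro x
    unfold I
    rw [if_pos (ind_small hk x), one_mul, mul_one]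
  rw [Finset.sum_congr rfl fun x _ => e x, ← Fintype.sum_pow, hμ.2, one_pow]

theorem P_pos (hμ : Pr μ) {a k : ℕ} (hL : Lg μ N a) (hk : k ≤ a) : 0 < P μ N k := by
  obtain ⟨⟨x, hx, hpos⟩, _⟩ := hL
  unfold P E
  refine Finset.sum_pos' (fun x _ => mul_nonneg (mul_nonneg (I_nonneg _)
    (Finset.prod_nonneg fun i _ => hμ.1 _)) zero_le_one)
    ⟨fun i => x (Fin.castLE hk i), Finset.mem_univ _, ?_⟩
  have h1 : Ind N fun i => x (Fin.castLE hk i) := fun i j l h1 h2 h3 =>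
    hx _ _ _ (fun h => h1 (Fin.castLE_injective hk h)) (fun h => h2 (Fin.castLE_injective hk h))
      (fun h => h3 (Fin.castLE_injective hk h))
  unfold I
  rw [if_pos h1, one_mul, mul_one]
  exact Finset.prod_pos fun i _ => hpos _

theorem P_zero (hμ : Pr μ) {a : ℕ} (hL : Lg μ N a) : P μ N (a + 1) = 0 := by
  unfold P E
  refine Finset.sum_eq_zero fun x _ => ?_
  by_cases h : ∀ i, 0 < μ (x i)
  · unfold I
    rw [if_neg (hL.2 x h), zero_mul, zero_mul]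
  · rw [not_forall] at h
    obtain ⟨i, hi⟩ := h
    have h0 : μ (x i) = 0 := le_antisymm (not_lt.1 hi) (hμ.1 _)
    rw [Finset.prod_eq_zero (Finset.mem_univ i) h0, mul_zero, zero_mul]

theorem s_rg : S_J1 → S_J2 → S_J4 → S_J5 → S_CH → S_RG := by
  intro h1 h2 h4 h5 hC
  obtain ⟨A, hA⟩ := hC
  refine ⟨A, ?_⟩
  intro V _ μ N hN hμ t ht a ha hL
  refine hA a ha (P μ N) (Y μ N) t (P_small hμ (by omega)) (P_small hμ (by omega))
    (P_small hμ (by omega)) (fun k hk => P_pos hμ hL hk) (P_zero hμ hL) (P_nonneg hμ.1)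
    (Y_nonneg hμ.1) (h1 V μ N hN hμ.1) (h2 V μ N hN hμ) fun k => ?_
  have g4 := h4 V μ N hN hμ.1 t ht k
  have g5 := h5 V μ N hN hμ.1 k
  have g6 := P_nonneg (N := N) hμ.1 (k + 1)
  have g7 := mul_le_mul_of_nonneg_right g4 g6
  have g8 : 5 / 6 * ((k : ℝ) + 1) * Y μ N k ^ 2 ≤
      5 / 6 * ((k : ℝ) + 1) * (D μ N k * P μ N (k + 1)) :=
    mul_le_mul_of_nonneg_left g5 (by positivity)
  nlinarith

end Pool.Agent.Y737.DC3.Rg
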